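import Pool.Agent.SHA.Stmts

/-!
Squad SHA, row ANA.
-/

set_option autoImplicit false

namespace Pool.Agent.SHA.H92

open Pool.Agent.SHA

theorem fr_comm (p q : ℝ) : fr p q = fr q p := by
  unfold fr
  rw [mul_comm p q]
  ring

theorem pw_lt {p w : ℝ} (h0 : 0 ≤ p) (h1 : p < 1) (h2 : w < 1) : 0 < 1 - p * w := by
  have : p * w ≤ p * 1 := mul_le_mul_of_nonneg_left h2.le h0
  linarith

theorem fr_diff {p p' w : ℝ} (h0 : 0 ≤ p) (h1 : p' < 1) (h : p ≤ p') (h2 : w < 1) :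
    fr p w - fr p' w = (p' - p) * ((1 - w) ^ 2 / ((1 - p * w) * (1 - p' * w))) := by
  have e1 : (1 - p * w) ≠ 0 := (pw_lt h0 (lt_of_le_of_lt h h1) h2).ne'
  have e2 : (1 - p' * w) ≠ 0 := (pw_lt (h0.trans h) h1 h2).ne'
  unfold fr
  rw [div_sub_div _ _ e1 e2, ← mul_div_assoc]
  congr 1
  ring

theorem fr_anti {p p' w : ℝ} (h0 : 0 ≤ p) (h1 : p' < 1) (h : p ≤ p') (h2 : w < 1) :
    fr p' w ≤ fr p w := by
  have e1 : 0 < (1 - p * w) := pw_lt h0 (lt_of_le_of_lt h h1) h2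
  have e2 : 0 < (1 - p' * w) := pw_lt (h0.trans h) h1 h2
  have e3 := fr_diff h0 h1 h h2
  have e4 : 0 ≤ (p' - p) * ((1 - w) ^ 2 / ((1 - p * w) * (1 - p' * w))) :=
    mul_nonneg (by linarith) (by positivity)
  linarith

theorem fr_lip {p p' w : ℝ} (h0 : 0 ≤ p) (h1 : p' < 1) (h : p ≤ p') (hw : 0 ≤ w) (h2 : w < 1) :
    fr p w ≤ fr p' w + (p' - p) := by
  have e1 : 0 < (1 - p * w) := pw_lt h0 (lt_of_le_of_lt h h1) h2
  have e2 : 0 < (1 - p' * w) := pw_lt (h0.trans h) h1 h2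
  have e3 := fr_diff h0 h1 h h2
  have e4 : (1 - w) ^ 2 / ((1 - p * w) * (1 - p' * w)) ≤ 1 := by
    rw [div_le_one (mul_pos e1 e2), sq]
    have f1 : 1 - w ≤ 1 - p * w := by
      have : p * w ≤ 1 * w := mul_le_mul_of_nonneg_right (by linarith) hw
      linarith
    have f2 : 1 - w ≤ 1 - p' * w := by
      have : p' * w ≤ 1 * w := mul_le_mul_of_nonneg_right (by linarith) hw
      linarith
    exact mul_le_mul f1 f2 (by linarith) (by linarith)
  have e5 : (p' - p) * ((1 - w) ^ 2 / ((1 - p * w) * (1 - p' * w))) ≤ (p' - p) * 1 :=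
    mul_le_mul_of_nonneg_left e4 (by linarith)
  linarith

theorem fr_step {p t w e : ℝ} (hp : 0 ≤ p) (hp1 : p < 1) (ht : 0 ≤ t) (ht1 : t < 1) (hw : 0 ≤ w)
    (hw1 : w < 1) (he : 0 ≤ e) (h : t ≤ p + e) : fr p w ≤ fr t w + e := by
  rcases le_total t p with h1 | h1
  · have := fr_anti ht hp1 h1 hw1
    linarith
  · have := fr_lip hp ht1 h1 hw hw1
    linarith

theorem scale {u r1 r2 : ℝ} (hu : 0 ≤ u) (hu1 : u ≤ 1) (h1 : 0 ≤ r1) (h1' : r1 < 1)
    (h2 : 0 ≤ r2) (h2' : r2 < 1) : u * fr (u * r1) (u * r2) ≤ fr r1 r2 := by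
  have hP : 0 < 1 - r1 * r2 := pw_lt h1 h1' h2'
  have hu1' : u * r1 < 1 := by
    have : u * r1 ≤ 1 * r1 := mul_le_mul_of_nonneg_right hu1 h1
    linarith
  have hu2' : u * r2 < 1 := by
    have : u * r2 ≤ 1 * r2 := mul_le_mul_of_nonneg_right hu1 h2
    linarith
  have hQ : 0 < 1 - u * r1 * (u * r2) := pw_lt (by positivity) hu1' hu2'
  unfold fr
  rw [← mul_div_assoc, div_le_div_iff₀ hQ hP]
  have h3 : (2 - r1 - r2) * (1 - u * r1 * (u * r2)) - u * (2 - u * r1 - u * r2) * (1 - r1 * r2) =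
      (1 - u) * ((1 - u) * (2 - (r1 + r2)) + 2 * u * ((1 - r1) * (1 - r2))) := by ring
  have h4 : 0 ≤ (1 - u) * ((1 - u) * (2 - (r1 + r2)) + 2 * u * ((1 - r1) * (1 - r2))) := by
    apply mul_nonneg (by linarith)
    apply add_nonneg
    · exact mul_nonneg (by linarith) (by linarith)
    · exact mul_nonneg (by linarith) (mul_nonneg (by linarith) (by linarith))
  linarith

theorem ratio_props (s : ℕ) (n : ℕ∞) (hs : 1 ≤ s) (h : (s : ℕ∞) < n) :
    0 ≤ ratio s n ∧ ratio s n < 1 := by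
  induction n using ENat.recTopCoe with
  | top => rw [ratio_top]; norm_num
  | coe M =>
    rw [ratio_coe]
    have h1 : s < M := by exact_mod_cast h
    have h2 : (s : ℝ) < M := by exact_mod_cast h1
    have h3 : (0 : ℝ) < M := by
      have : (0 : ℝ) ≤ s := Nat.cast_nonneg s
      linarith
    exact ⟨by positivity, (div_lt_one h3).2 h2⟩

theorem tau_le (s a k : ℕ) (n : ℕ∞) (hs : 1 ≤ s) (hk : k < a) (h : (s : ℕ∞) < n)
    (hM : ∀ M : ℕ, n = M → a * (s - 1) ≤ (k + 1) * M) :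
    ((s : ℝ) - 1) / s * ratio s n ≤ (k : ℝ) / a + 1 / a := by
  have ha : (0 : ℝ) < a := by exact_mod_cast (by omega : 0 < a)
  have hs' : (0 : ℝ) < s := by exact_mod_cast (by omega : 0 < s)
  induction n using ENat.recTopCoe with
  | top =>
    rw [ratio_top, mul_zero]
    positivity
  | coe M =>
    rw [ratio_coe]
    have h1 : s < M := by exact_mod_cast h
    have h3 : (0 : ℝ) < M := by exact_mod_cast (by omega : 0 < M)
    have h4 := hM M rfl
    have h5 : (a : ℝ) * ((s : ℝ) - 1) ≤ ((k : ℝ) + 1) * M := by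
      have : ((a * (s - 1) : ℕ) : ℝ) ≤ (((k + 1) * M : ℕ) : ℝ) := by exact_mod_cast h4
      rw [Nat.cast_mul, Nat.cast_sub hs] at this
      push_cast at this
      exact this
    have h6 : ((s : ℝ) - 1) / s * (s / M) = ((s : ℝ) - 1) / M := by
      field_simp
    rw [h6, ← add_div, div_le_div_iff₀ h3 ha]
    linarith

theorem lead_eq (s : ℕ) (n1 n2 : ℕ∞) (hs : 1 ≤ s) (h1 : (s : ℕ∞) < n1) (h2 : (s : ℕ∞) < n2) :
    lead s n1 n2 = s * fr (ratio s n1) (ratio s n2) := by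
  obtain ⟨a1, a2⟩ := ratio_props s n1 hs h1
  obtain ⟨b1, b2⟩ := ratio_props s n2 hs h2
  have hP : 1 - ratio s n1 * ratio s n2 ≠ 0 := (pw_lt a1 a2 b2).ne'
  unfold lead theta fr
  congr 1
  rw [eq_div_iff hP, add_mul, div_mul_cancel₀ _ hP]
  ring

theorem ana : ANAStmt := by
  intro s a k k' n1 n2 hs hk hk' h1 h2 hM1 hM2
  have ha : (0 : ℝ) < a := by exact_mod_cast (by omega : 0 < a)
  have hs' : (1 : ℝ) ≤ s := by exact_mod_cast hs
  have hs0 : (0 : ℝ) < s := by linarith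
  obtain ⟨a1, a2⟩ := ratio_props s n1 hs h1
  obtain ⟨b1, b2⟩ := ratio_props s n2 hs h2
  have t1 := tau_le s a k n1 hs hk h1 hM1
  have t2 := tau_le s a k' n2 hs hk' h2 hM2
  have hu : 0 ≤ ((s : ℝ) - 1) / s := div_nonneg (by linarith) hs0.le
  have hu1 : ((s : ℝ) - 1) / s ≤ 1 := by
    rw [div_le_one hs0]
    linarith
  have k1 : 0 ≤ (k : ℝ) / a := by positivity
  have k1' : (k : ℝ) / a < 1 := by
    rw [div_lt_one ha]
    exact_mod_cast hk
  have k2 : 0 ≤ (k' : ℝ) / a := by positivity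
  have k2' : (k' : ℝ) / a < 1 := by
    rw [div_lt_one ha]
    exact_mod_cast hk'
  have m1 : 0 ≤ ((s : ℝ) - 1) / s * ratio s n1 := mul_nonneg hu a1
  have m1' : ((s : ℝ) - 1) / s * ratio s n1 < 1 := by
    have := mul_le_mul_of_nonneg_right hu1 a1
    linarith
  have m2 : 0 ≤ ((s : ℝ) - 1) / s * ratio s n2 := mul_nonneg hu b1
  have m2' : ((s : ℝ) - 1) / s * ratio s n2 < 1 := by
    have := mul_le_mul_of_nonneg_right hu1 b1
    linarith
  have s1 := fr_step k1 k1' m1 m1' k2 k2' (by positivity) t1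
  have s2 := fr_step k2 k2' m2 m2' m1 m1' (by positivity) t2
  rw [fr_comm ((k' : ℝ) / a), fr_comm (((s : ℝ) - 1) / s * ratio s n2)] at s2
  have s3 := scale hu hu1 a1 a2 b1 b2
  have s4 : fr ((k : ℝ) / a) ((k' : ℝ) / a) ≤
      fr (((s : ℝ) - 1) / s * ratio s n1) (((s : ℝ) - 1) / s * ratio s n2) + 2 / a := by
    have : (2 : ℝ) / a = 1 / a + 1 / a := by ring
    linarith
  have s5 := mul_le_mul_of_nonneg_left s4 (show (0 : ℝ) ≤ (s : ℝ) - 1 by linarith)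
  have s6 := mul_le_mul_of_nonneg_left s3 hs0.le
  rw [lead_eq s n1 n2 hs h1 h2]
  have s7 : (s : ℝ) * (((s : ℝ) - 1) / s * fr (((s : ℝ) - 1) / s * ratio s n1)
      (((s : ℝ) - 1) / s * ratio s n2)) = ((s : ℝ) - 1) * fr (((s : ℝ) - 1) / s * ratio s n1)
      (((s : ℝ) - 1) / s * ratio s n2) := by
    rw [← mul_assoc, mul_div_cancel₀ _ hs0.ne']
  rw [s7] at s6
  have s8 : ((s : ℝ) - 1) * (fr (((s : ℝ) - 1) / s * ratio s n1)
      (((s : ℝ) - 1) / s * ratio s n2) + 2 / a) = ((s : ℝ) - 1) * fr (((s : ℝ) - 1) / s * ratio s n1)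
      (((s : ℝ) - 1) / s * ratio s n2) + 2 * ((s : ℝ) - 1) / a := by ring
  linarith

end Pool.Agent.SHA.H92
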